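import Mathlib
import Pool.Agent.X1.NfaE2

/-!
# The automatic complexity of the first `N` digits of `e`

The nondeterministic automatic complexity of a word `w` is the least number of states of a
nondeterministic automaton (without empty transitions) which accepts `w` and no other word of the
same length.  For the first `N` digits of `e` in any base it is at least `N exp (-c √(log N))` for
every `c > 2 √(log 2) = 1.66…` and all large `N`, uniformly in the base.
-/

set_option autoImplicit false

namespace Pool.Agent.Results.MP_7e9a3a_nt.AutomaticComplexityOfE

/-- the word formed by the first `N` digits of `e` after the point in base `b` (Mathlib's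
`Real.digits x b i` is the `(i+1)`-st digit after the point, `⌊x b^(i+1)⌋ mod b`) -/
noncomputable def eWord (b : ℕ) [NeZero b] (N : ℕ) : List (Fin b) :=
  (List.range N).map (Real.digits (Real.exp 1) b)

/-- Let `c > 2 √(log 2)`.  There is `N₁` such that for all `N ≥ N₁` and all bases `b ≥ 2` (for
instance `b = 10`): every nondeterministic finite automaton which accepts the word formed by the
first `N` digits of `e` in base `b` and no other word of length `N` has at least
`N exp (-c √(log N))` states. -/
theorem result (c : ℝ) (hc : 2 * √(Real.log 2) < c) :
    ∃ N₁ : ℕ, ∀ (b : ℕ) [NeZero b], 2 ≤ b →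
    ∀ (σ : Type) [Fintype σ] (M : NFA (Fin b) σ) (N : ℕ), N₁ ≤ N →
      eWord b N ∈ M.accepts →
      (∀ w ∈ M.accepts, w.length = N → w = eWord b N) →
      (N : ℝ) * Real.exp (-(c * √(Real.log N))) ≤ Fintype.card σ :=
  Pool.Agent.X1.NfaAlg.exp2_states (Real.exp_pos 1).le Pool.Agent.H43R2.Cplx.exp2_e hc

end Pool.Agent.Results.MP_7e9a3a_nt.AutomaticComplexityOfE
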