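import Mathlib
import Pool.Agent.TH629.ExpAlg2

/-!
# Joint algebraic relations between the digits of `e` and of algebraic numbers

Let `D_i(X) = a_{i,1} X + ⋯ + a_{i,L} X^L` be the polynomial of the first `L` digits of `x_i` in base `b`.
Counting coefficients, there are always relations `∑_j h_j M_j(D_1, …, D_n) ≡ 0 mod X^(L+1)` between
`m + 1` given monomials `M_j`, with polynomials `h_j`, not all zero, of degree at most `L / (m + 1) + 1`.

Let `K` be a real number field of degree `d` and `x_i = α_i e^{k_i}` with `α_i ∈ K`, for instance `e` and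
`√2`.  If the monomials `M_j(x_1, …, x_n)` are linearly independent over `ℚ` and contain powers `e^t` with
`t ≤ R` only, then the degree is at least `(1 / (d (d R + 1)) - o(1)) L`, uniformly in the base.  For
`K = ℚ` and the powers `1, e, …, e^R` the two bounds agree: the algebraic complexity of degree `R` of the
digits of `e` is `(1 / (R + 1) + o(1)) L`.
-/

set_option autoImplicit false

namespace Pool.Agent.Results.MP_7e9a3a_nt.JointDigitsOfEAndAlgebraics

open Finset Polynomial Module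

/-- the `i`-th digit of `x` after the point in base `b` -/
noncomputable def digit (b : ℕ) (x : ℝ) (i : ℕ) : ℤ := ⌊x * (b : ℝ) ^ i⌋ % (b : ℤ)

/-- the polynomial `a_1 X + a_2 X^2 + ⋯ + a_L X^L`, where `a_i` is the `i`-th digit of `x` after
the point in base `b` -/
noncomputable def digitPoly (b : ℕ) (x : ℝ) (L : ℕ) : ℚ[X] :=
  ∑ i ∈ Icc 1 L, C (digit b x i : ℚ) * X ^ i

/-- there are polynomials `h_0, …, h_m` over `ℚ`, not all zero, of degree `≤ k`, such that
`∑_j h_j ∏_i D_i ^ (E j i)` is divisible by `X^(L+1)`, where `D_i` is the polynomial of the first `L`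
digits of `x_i` in base `b` -/
def MonRelation (b : ℕ) {n m : ℕ} (x : Fin n → ℝ) (E : Fin (m + 1) → Fin n → ℕ) (L k : ℕ) : Prop :=
  ∃ h : Fin (m + 1) → ℚ[X], h ≠ 0 ∧ (∀ j, (h j).natDegree ≤ k) ∧
    X ^ (L + 1) ∣ ∑ j, h j * ∏ i, digitPoly b (x i) L ^ E j i

/-- the joint complexity of the first `L` digits of the `x_i` with respect to the monomials with
exponents `E j`: the least possible `k` -/
noncomputable def monComplexity (b : ℕ) {n m : ℕ} (x : Fin n → ℝ) (E : Fin (m + 1) → Fin n → ℕ)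
    (L : ℕ) : ℕ := sInf {k | MonRelation b x E L k}

lemma monComplexity_eq (b : ℕ) {n m : ℕ} (x : Fin n → ℝ) (E : Fin (m + 1) → Fin n → ℕ) (L : ℕ) :
    monComplexity b x E L = Pool.Agent.W472.AC.monComplexity b x E L := rfl

/-- the powers `1, D, …, D^r` of one digit polynomial -/
def powers (r : ℕ) (j : Fin (r + 1)) : Fin 1 → ℕ := fun _ => j

/-- the exponents of the monomials `e^t √2^u φ^v` with `t ≤ r` and `u, v ≤ 1` -/
def mixed (r : ℕ) (j : Fin (4 * r + 3 + 1)) : Fin 3 → ℕ :=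
  ![(j : ℕ) / 4, (j : ℕ) / 2 % 2, (j : ℕ) % 2]

lemma e_powers (r : ℕ) : LinearIndependent ℚ
    (fun j : Fin (r + 1) => ∏ i, (((fun _ : Fin 1 => (1 : ((⊥ : IntermediateField ℚ ℝ)))) i : ℝ) *
      Real.exp (((fun _ : Fin 1 => 1) i : ℕ) : ℝ)) ^ powers r j i) := by
  have ht := Pool.Agent.TH629.ExpAlg.exp_one_transcendental
  rw [Fintype.linearIndependent_iff]
  intro g hg j
  have h1 : aeval (Real.exp 1) (∑ j : Fin (r + 1), C (g j) * X ^ (j : ℕ)) = 0 := by
    rw [map_sum]
    rw [← hg]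
    apply Finset.sum_congr rfl
    intro j _
    simp [powers, Algebra.smul_def]
  have h2 := (transcendental_iff.1 ht) _ h1
  have h3 := congrArg (fun p : ℚ[X] => p.coeff (j : ℕ)) h2
  simp only [finsetSum_coeff, coeff_C_mul, coeff_X_pow, coeff_zero] at h3
  rw [Finset.sum_eq_single j] at h3
  · simpa using h3
  · intro i _ hij
    rw [if_neg (fun h => hij (Fin.ext h.symm))]
    simp
  · simp

/-- (1) Let `K` be a real number field of degree `d`, let `x_i = α_i e^{k_i}` with `α_i ∈ K`, and let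
`E` be a downward closed family of exponents such that the monomials `∏_i x_i^(E j i)` are linearly
independent over `ℚ` and `∑_i k_i E j i ≤ R` for all `j`.  Then the joint complexity of the first `L`
digits of the `x_i` with respect to these `m + 1` monomials lies between `(1 / (d (d R + 1)) - ε) L` and
`(1 / (m + 1) + ε) L` for all `L ≥ L₀(ε)` and all bases.

(2) For the powers `1, e, …, e^r` it is `(1 / (r + 1) + o(1)) L`.

(3) For the monomials `e^t √2^u φ^v` with `t ≤ r`, `u, v ≤ 1` it is at least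
`(1 / (4 (4 r + 1)) - ε) L`. -/
theorem result :
    (∀ (K : IntermediateField ℚ ℝ) [FiniteDimensional ℚ K] (n m : ℕ) (α : Fin n → K)
      (k : Fin n → ℕ) (E : Fin (m + 1) → Fin n → ℕ),
      (∀ j, ∀ a : Fin n → ℕ, a ≤ E j → ∃ j', E j' = a) → ∀ R : ℕ, (∀ j, ∑ i, k i * E j i ≤ R) →
      (LinearIndependent ℚ fun j => ∏ i, ((α i : ℝ) * Real.exp (k i)) ^ E j i) →
      ∀ ε : ℝ, 0 < ε → ∃ L₀ : ℕ, ∀ L : ℕ, L₀ ≤ L → ∀ b : ℕ, 2 ≤ b →
        (1 / ((finrank ℚ K : ℝ) * (finrank ℚ K * R + 1)) - ε) * L <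
          monComplexity b (fun i => (α i : ℝ) * Real.exp (k i)) E L ∧
        (monComplexity b (fun i => (α i : ℝ) * Real.exp (k i)) E L : ℝ) <
          (1 / ((m : ℝ) + 1) + ε) * L) ∧
    (∀ r : ℕ, ∀ ε : ℝ, 0 < ε → ∃ L₀ : ℕ, ∀ L : ℕ, L₀ ≤ L → ∀ b : ℕ, 2 ≤ b →
      |(monComplexity b ![Real.exp 1] (powers r) L : ℝ) - L / (r + 1)| < ε * L) ∧
    (∀ r : ℕ, ∀ ε : ℝ, 0 < ε → ∃ L₀ : ℕ, ∀ L : ℕ, L₀ ≤ L → ∀ b : ℕ, 2 ≤ b →
      (1 / (4 * (4 * (r : ℝ) + 1)) - ε) * L <
        monComplexity b ![Real.exp 1, √2, Real.goldenRatio] (mixed r) L) := by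
  refine ⟨?_, ?_, ?_⟩
  · intro K _ n m α k E hdown R hR hli ε hε
    exact Pool.Agent.TH629.ExpAlg.main K α k E hdown R hR hli ε hε
  · intro r ε hε
    obtain ⟨L₀, h⟩ := Pool.Agent.TH629.ExpAlg.main (⊥ : IntermediateField ℚ ℝ)
      (fun _ : Fin 1 => (1 : (⊥ : IntermediateField ℚ ℝ))) (fun _ : Fin 1 => 1) (powers r)
      (by
        intro j a ha
        have h0 : a 0 ≤ (j : ℕ) := ha 0
        refine ⟨⟨a 0, by omega⟩, ?_⟩
        ext i
        have : i = 0 := Subsingleton.elim _ _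
        subst this
        rfl) r (by
        intro j
        simp [powers]
        omega) (e_powers r) ε hε
    refine ⟨L₀, fun L hL b hb => ?_⟩
    obtain ⟨h1, h2⟩ := h L hL b hb
    have hx : (fun i : Fin 1 => (((fun _ : Fin 1 => (1 : (⊥ : IntermediateField ℚ ℝ))) i : ℝ)) *
        Real.exp (((fun _ : Fin 1 => 1) i : ℕ) : ℝ)) = ![Real.exp 1] := by
      ext i
      have : i = 0 := Subsingleton.elim _ _
      subst this
      simp
    have hf : (finrank ℚ (⊥ : IntermediateField ℚ ℝ) : ℝ) = 1 := by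
      rw [IntermediateField.finrank_bot]
      norm_num
    have e1 : (1 : ℝ) / (1 * (1 * (r : ℝ) + 1)) = 1 / ((r : ℝ) + 1) := by ring
    rw [hf, e1] at h1
    have h1' : (1 / ((r : ℝ) + 1) - ε) * L < (monComplexity b ![Real.exp 1] (powers r) L : ℝ) := by
      rw [← hx]
      exact h1
    have h2' : (monComplexity b ![Real.exp 1] (powers r) L : ℝ) < (1 / ((r : ℝ) + 1) + ε) * L := by
      rw [← hx]
      exact h2
    rw [abs_lt]
    have e : (L : ℝ) / (r + 1) = 1 / ((r : ℝ) + 1) * L := by ring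
    rw [e]
    constructor <;> linarith
  · intro r ε hε
    exact Pool.Agent.TH629.ExpAlg.main_example r ε hε

end Pool.Agent.Results.MP_7e9a3a_nt.JointDigitsOfEAndAlgebraics
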