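import Pool.Agent.X121.TV.Tup

/-!
# The digits of `e`, `π`, `√2` in a random integer base

Let `θ = e` or `θ = π`, let `β_1, …, β_k` be real algebraic numbers and `w_1, …, w_k ≥ 0` integers such
that `1` and the numbers `x_j = β_j θ^{w_j}` are linearly independent over `ℚ`; for instance
`x = (θ, √2)`, `x = (θ)`, `x = (√2)`.  Choose a base `b` at random in an arbitrary interval
`(M, M + H]` of `H` consecutive integers (no condition on `M`), and divide `[0, 1)` into `m` equal parts.
The parts which contain the fractional parts of `x_j b^i`, `1 ≤ i ≤ N`, `1 ≤ j ≤ k` (that is, the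
leading parts of the first `N + 1` digits of the `x_j` in base `b`) form a random array in
`{0, …, m-1}^{k N}`.  For all large `H`, all `N ≤ (log H)^{1/7}` and `m ≤ exp((log H)^{1/10})` the
distance in total variation between this random array and an array of `k N` independent uniformly
distributed entries is at most `exp(-(log H)^{1/10})`.

The proof uses Vinogradov's mean value theorem with explicit constants (`Pool.Agent.Y957.VK` and
others, starting files) for polynomials whose degree grows with the length of the sum, a measure of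
linear independence for the `x_j`, and trigonometric majorants in dimension `k N`.
-/

set_option autoImplicit false

namespace Pool.Agent.Results.MP_7e9a3a_nt.RandomBases

open Real

/-- In a random base from `H` consecutive integers the first `N` digits of the numbers `x_j` are
jointly random: for every set `E` of `k × N` arrays with entries in `{0, …, m-1}`, the proportion of the
bases `b` in `(M, M + H]` for which the array of the numbers `⌊m {x_j b^i}⌋` is in `E` differs from
`|E| / m^{k N}` by at most `exp(-(log H)^{1/10})`. -/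
def DigitsRandom {k : ℕ} (x : Fin k → ℝ) : Prop :=
  ∃ H₀ : ℕ, ∀ H : ℕ, H₀ ≤ H → ∀ M N m : ℕ, 1 ≤ m → (N : ℝ) ≤ (log H) ^ (1 / 7 : ℝ) →
    (m : ℝ) ≤ exp ((log H) ^ (1 / 10 : ℝ)) → ∀ E : Finset (Fin k → Fin N → Fin m),
      |(((Finset.Ioc M (M + H)).filter fun b : ℕ => ∃ A ∈ E, ∀ (j : Fin k) (i : Fin N),
          ⌊m * Int.fract (x j * (b : ℝ) ^ ((i : ℕ) + 1))⌋₊ = (A j i : ℕ)).card : ℝ) / H -
        E.card / (m : ℝ) ^ (k * N)| ≤ exp (-((log H) ^ (1 / 10 : ℝ)))

/-- (1) The digits of the numbers `β_j θ^{w_j}`, `θ = e` or `θ = π`, `β_j` real algebraic, in random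
bases are jointly random, if `1` and these numbers are linearly independent over `ℚ`.
(2), (3) In particular this holds for the pairs `e, √2` and `π, √2`. -/
theorem result :
    (∀ θ : ℝ, (θ = exp 1 ∨ θ = π) → ∀ (k : ℕ) (β : Fin k → ℝ) (w : Fin k → ℕ),
      (∀ j, IsAlgebraic ℚ (β j)) →
      LinearIndependent ℚ (Fin.cons 1 (fun j => β j * θ ^ w j) : Fin (k + 1) → ℝ) →
      DigitsRandom (fun j => β j * θ ^ w j)) ∧
    DigitsRandom ![exp 1, √2] ∧ DigitsRandom ![π, √2] := by
  refine ⟨?_, Pool.Agent.X121.TV.rand_two Pool.Agent.X121.TV.MT_exp,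
    Pool.Agent.X121.TV.rand_two Pool.Agent.X121.TV.MT_pi⟩
  rintro θ (rfl | rfl) k β w hβ hli
  · exact Pool.Agent.X121.TV.rand_alg Pool.Agent.X121.TV.MT_exp β w hβ hli
  · exact Pool.Agent.X121.TV.rand_alg Pool.Agent.X121.TV.MT_pi β w hβ hli

end Pool.Agent.Results.MP_7e9a3a_nt.RandomBases
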