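import Mathlib
import Pool.Agent.X1.NfaE2

/-!
# Finite automata and the digits of `e`

A nondeterministic automaton with at most `N^(1-δ)` states which accepts the first `N` digits of `e`
in some base, or a word which differs from them in at most `η log N` places (`η log 2 < δ`), accepts
at least `exp (c (log N)^2)` words of length `N`, for every `c < (δ - η log 2)^2 / (4 log 2)`.
-/

set_option autoImplicit false

namespace Pool.Agent.Results.MP_7e9a3a_nt.WordsAcceptedWithDigitsOfE

open Finset

/-- the number of words of length `N` accepted by the automaton -/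
noncomputable def numAccepted {b : ℕ} {σ : Type} (M : NFA (Fin b) σ) (N : ℕ) : ℕ :=
  {w : List (Fin b) | w ∈ M.accepts ∧ w.length = N}.ncard

/-- Let `δ > η log 2`, `η ≥ 0` and `0 ≤ c < (δ - η log 2)^2 / (4 log 2)`.  There is `N₁` such that for
all bases `b ≥ 2` (for instance `b = 10`), all `N ≥ N₁` and all nondeterministic finite automata `M`
over the alphabet of the digits with at most `N^(1-δ)` states: if `M` accepts a word
`d_0 … d_(N-1)` which differs from the first `N` digits of `e` after the point in at most `η log N`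
places, then it accepts at least `exp (c (log N)^2)` words of length `N`.
(`Real.digits x b i` is Mathlib's name of the `(i+1)`-st digit after the point,
`⌊x b^(i+1)⌋ mod b`.) -/
theorem result (δ η c : ℝ) (hη : 0 ≤ η) (hηδ : η * Real.log 2 < δ) (hc0 : 0 ≤ c)
    (hc : c < (δ - η * Real.log 2) ^ 2 / (4 * Real.log 2)) :
    ∃ N₁ : ℕ, ∀ (b : ℕ) [NeZero b], 2 ≤ b →
    ∀ (σ : Type) [Fintype σ] (M : NFA (Fin b) σ) (N : ℕ), N₁ ≤ N →
      (Fintype.card σ : ℝ) ≤ (N : ℝ) ^ (1 - δ) →
      ∀ d : ℕ → Fin b,
        (((range N).filter fun i => d i ≠ Real.digits (Real.exp 1) b i).card : ℝ) ≤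
          η * Real.log N →
        (List.range N).map d ∈ M.accepts →
        Real.exp (c * Real.log N ^ 2) ≤ (numAccepted M N : ℝ) :=
  Pool.Agent.X1.NfaAlg.exp2_words (Real.exp_pos 1).le Pool.Agent.H43R2.Cplx.exp2_e hη hηδ hc0 hc

end Pool.Agent.Results.MP_7e9a3a_nt.WordsAcceptedWithDigitsOfE
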